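import Mathlib

namespace Pool.Agent.H.MP_f3871b_nt

open Finset PowerSeries

noncomputable def P : ℤ⟦X⟧ := PowerSeries.mk fun m => (Fintype.card (Nat.Partition m) : ℤ)

open scoped PowerSeries.WithPiTopology in
theorem partA (M : ℕ) : ∃ N, M ≤ N ∧ ∃ G : ℤ⟦X⟧, X ^ (M + 1) ∣ G - P ∧
    G * ∏ i ∈ range N, (1 - X ^ (i + 1)) = 1 := by
  have h := Nat.Partition.hasProd_powerSeriesMk_card_restricted ℤ (fun _ => True)
  simp only [if_true] at h
  have hP : (PowerSeries.mk fun n => ((Nat.Partition.restricted n fun _ => True).card : ℤ)) = P := by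
    unfold P
    congr 1
    funext n
    simp [Nat.Partition.restricted]
  rw [hP] at h
  have t := h.tendsto_prod_nat
  have ev : ∀ m : ℕ, ∀ᶠ N in Filter.atTop, coeff m (∏ i ∈ range N,
      ∑' j : ℕ, (X : ℤ⟦X⟧) ^ ((i + 1) * j)) = coeff m P := fun m => by
    have := ((PowerSeries.WithPiTopology.continuous_coeff ℤ m).tendsto _).comp t
    rw [nhds_discrete, Filter.tendsto_pure] at this
    exact this
  have ev2 := (Filter.eventually_all_finset (range (M + 1))).2 fun m _ => ev m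
  obtain ⟨N, h1, h2⟩ := (ev2.and (Filter.eventually_ge_atTop M)).exists
  refine ⟨N, h2, ∏ i ∈ range N, ∑' j : ℕ, (X : ℤ⟦X⟧) ^ ((i + 1) * j), X_pow_dvd_iff.2 fun m hm => ?_, ?_⟩
  · rw [map_sub, h1 m (mem_range.2 hm), sub_self]
  · rw [← prod_mul_distrib]
    refine prod_eq_one fun i _ => ?_
    simp_rw [pow_mul]
    exact PowerSeries.WithPiTopology.tsum_pow_mul_one_sub_of_constantCoeff_eq_zero (by simp)

noncomputable def F (n : ℕ → ℤ) (N : ℕ) : ℤ⟦X⟧ := ∏ i ∈ range N, (1 + C (n (i + 1)) * X ^ (i + 1))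

theorem F_stab (n : ℕ → ℤ) (m N : ℕ) (h : m ≤ N) : coeff m (F n N) = coeff m (F n m) := by
  induction N, h using Nat.le_induction with
  | base => rfl
  | succ N hN ih =>
    rw [← ih, F, prod_range_succ, mul_add, mul_one, map_add, ← mul_assoc, coeff_mul_X_pow',
      if_neg (by omega), add_zero]
    rfl

noncomputable def L (c : ℤ) (k : ℕ) : ℤ⟦X⟧ :=
  PowerSeries.mk fun m => if k ∣ m ∧ m ≠ 0 then -(k : ℤ) * (-c) ^ (m / k) else 0

theorem L_spec (c : ℤ) (k : ℕ) (hk : 0 < k) :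
    X * derivative ℤ (1 + C c * X ^ k : ℤ⟦X⟧) = (1 + C c * X ^ k) * L c k := by
  ext m
  rw [add_mul, one_mul, map_add (coeff m), mul_assoc, coeff_C_mul, coeff_X_pow_mul']
  have e : coeff m (X * derivative ℤ (1 + C c * X ^ k : ℤ⟦X⟧)) = if m = k then c * k else 0 := by
    rcases m with _ | m
    · rw [if_neg (by omega)]; simp
    · rw [coeff_succ_X_mul, coeff_derivative, map_add, coeff_C_mul, coeff_X_pow, coeff_one,
        if_neg (Nat.succ_ne_zero m)]
      split_ifs with h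
      · rw [← h]; push_cast; ring
      · simp
  rw [e]
  simp only [L, coeff_mk]
  by_cases hd : k ∣ m
  · obtain ⟨j, rfl⟩ := hd
    rcases j with _ | _ | j
    · simp [hk.ne, hk.ne']
    · simp [hk.ne', Nat.div_self hk]; ring
    · have h1 : k * (j + 1 + 1) ≠ k := by nlinarith
      have h2 : k * (j + 1 + 1) - k = k * (j + 1) := by rw [mul_add k (j + 1)]; omega
      rw [if_neg h1, if_pos ⟨dvd_mul_right _ _, by positivity⟩, if_pos (by nlinarith), h2,
        if_pos ⟨dvd_mul_right _ _, by positivity⟩, Nat.mul_div_cancel_left _ hk,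
        Nat.mul_div_cancel_left _ hk]
      ring
  · rw [if_neg (by rintro rfl; exact hd dvd_rfl), if_neg (fun h => hd h.1)]
    split_ifs with h1 h2
    · exact absurd ((Nat.dvd_sub_iff_left h1 dvd_rfl).1 h2.1) hd
    · simp
    · simp

theorem logd (f l : ℕ → ℤ⟦X⟧) (h : ∀ i, X * derivative ℤ (f i) = f i * l i) (N : ℕ) :
    X * derivative ℤ (∏ i ∈ range N, f i) = (∏ i ∈ range N, f i) * ∑ i ∈ range N, l i := by
  induction N with
  | zero => simp
  | succ N ih =>
    rw [prod_range_succ, sum_range_succ, Derivation.leibniz, smul_eq_mul, smul_eq_mul]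
    linear_combination (f N) * ih + (∏ i ∈ range N, f i) * h N

theorem recur (n : ℕ → ℤ) (h : ∀ m, coeff m (F n m) = coeff m P) (M : ℕ) (hM : M ≠ 0) :
    ∑ d ∈ M.divisors, (d : ℤ) * (-n d) ^ (M / d) = -∑ d ∈ M.divisors, (d : ℤ) := by
  obtain ⟨N, hN, G, hG, hG1⟩ := partA M
  have h1 : X ^ (M + 1) ∣ F n N - P := X_pow_dvd_iff.2 fun m hm => by
    rw [map_sub, F_stab n m N (by omega), h, sub_self]
  have h2 : X ^ (M + 1) ∣ F n N * ∏ i ∈ range N, (1 - X ^ (i + 1)) - 1 := by
    have := (dvd_sub h1 hG).mul_right (∏ i ∈ range N, (1 - X ^ (i + 1)))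
    convert this using 1
    linear_combination hG1
  have h3 := logd (fun i => (1 + C (n (i + 1)) * X ^ (i + 1)) * (1 + C (-1) * X ^ (i + 1)))
    (fun i => L (n (i + 1)) (i + 1) + L (-1) (i + 1)) (fun i => by
      rw [Derivation.leibniz, smul_eq_mul, smul_eq_mul]
      linear_combination (1 + C (-1) * X ^ (i + 1)) * L_spec (n (i + 1)) (i + 1) (by omega)
        + (1 + C (n (i + 1)) * X ^ (i + 1)) * L_spec (-1) (i + 1) (by omega)) N
  have e : ∏ i ∈ range N, ((1 + C (n (i + 1)) * X ^ (i + 1)) * (1 + C (-1) * X ^ (i + 1)) : ℤ⟦X⟧)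
      = F n N * ∏ i ∈ range N, (1 - X ^ (i + 1)) := by
    rw [prod_mul_distrib, F]
    congr 1
    exact prod_congr rfl fun i _ => by simp [sub_eq_add_neg]
  rw [e] at h3
  obtain ⟨W, hW⟩ := h2
  rw [sub_eq_iff_eq_add] at hW
  rw [hW] at h3
  have c := congrArg (coeff M) h3
  rw [add_mul, one_mul, map_add (coeff M), mul_assoc, coeff_X_pow_mul', if_neg (by omega),
    zero_add] at c
  have c0 : coeff M (X * derivative ℤ (X ^ (M + 1) * W + 1)) = 0 := by
    obtain ⟨M, rfl⟩ := Nat.exists_eq_succ_of_ne_zero hM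
    rw [coeff_succ_X_mul, coeff_derivative, map_add, coeff_X_pow_mul', if_neg (by omega), coeff_one,
      if_neg (by omega)]
    simp
  rw [c0, map_sum] at c
  simp only [map_add, L, coeff_mk] at c
  rw [eq_neg_iff_add_eq_zero, ← sum_add_distrib, ← neg_eq_zero, ← sum_neg_distrib, c]
  have hd : M.divisors = ((range N).filter (fun i => i + 1 ∣ M)).image (· + 1) := by
    ext d
    simp only [Nat.mem_divisors, mem_image, mem_filter, mem_range]
    constructor
    · rintro ⟨hd, -⟩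
      have := Nat.le_of_dvd (Nat.pos_of_ne_zero hM) hd
      have := Nat.pos_of_dvd_of_pos hd (Nat.pos_of_ne_zero hM)
      exact ⟨d - 1, ⟨by omega, by rwa [show d - 1 + 1 = d by omega]⟩, by omega⟩
    · rintro ⟨i, ⟨-, hi⟩, rfl⟩
      exact ⟨hi, hM⟩
  rw [hd, sum_image (fun a _ b _ hab => by simpa using hab), sum_filter]
  refine sum_congr rfl fun i _ => ?_
  by_cases hi : i + 1 ∣ M
  · simp [hi, hM]; ring
  · simp [hi]

noncomputable def Q : ℕ → ℤ⟦X⟧
  | 0 => 1
  | k + 1 => Q k * (1 + C (coeff (k + 1) P - coeff (k + 1) (Q k)) * X ^ (k + 1))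

theorem exists_seq : ∃ n : ℕ → ℤ, ∀ m, coeff m (F n m) = coeff m P := by
  let n : ℕ → ℤ := fun k => coeff k P - coeff k (Q (k - 1))
  have e : ∀ m, F n m = Q m := by
    intro m
    induction m with
    | zero => rfl
    | succ m ih => rw [F, prod_range_succ, Q, ← ih]; simp only [n, Nat.add_sub_cancel, ← ih]; rfl
  have c0 : ∀ m, coeff 0 (Q m) = 1 := by
    intro m
    induction m with
    | zero => simp [Q]
    | succ m ih =>
      rw [Q, mul_add, mul_one, map_add, ← mul_assoc, coeff_mul_X_pow', if_neg (by omega), ih]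
      simp
  refine ⟨n, fun m => ?_⟩
  rw [e]
  rcases m with _ | m
  · rw [c0]; simp [P]
  · rw [Q, mul_add, mul_one, map_add, ← mul_assoc, coeff_mul_X_pow', if_pos le_rfl, Nat.sub_self,
      coeff_mul_C, c0]
    ring

end Pool.Agent.H.MP_f3871b_nt
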