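import Mathlib
import Pool.Agent.H.MP_f3871b_nt.Rec
import Pool.Agent.H.MP_f3871b_nt.Tab

namespace Pool.Agent.H.MP_f3871b_nt

open Finset

def Rc (n : ℕ → ℤ) : Prop := ∀ M : ℕ, M ≠ 0 →
  ∑ d ∈ M.divisors, (d : ℤ) * (-n d) ^ (M / d) = -∑ d ∈ M.divisors, (d : ℤ)

theorem split (n : ℕ → ℤ) (M : ℕ) (hM : M ≠ 0) :
    ∑ d ∈ M.divisors, (d : ℤ) * (-n d) ^ (M / d)
      = ∑ d ∈ M.properDivisors, (d : ℤ) * (-n d) ^ (M / d) - M * n M := by
  rw [← Nat.insert_self_properDivisors hM, sum_insert Nat.self_notMem_properDivisors,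
    Nat.div_self (Nat.pos_of_ne_zero hM)]
  ring

theorem odd_one {n : ℕ → ℤ} (h : Rc n) : ∀ m, m % 2 = 1 → n m = 1 := by
  intro m
  induction m using Nat.strong_induction_on with
  | _ m ih =>
    intro hm
    have h0 : m ≠ 0 := by omega
    have e := h m h0
    have e1 : ∑ d ∈ m.divisors, (d : ℤ) = ∑ d ∈ m.properDivisors, (d : ℤ) + m := by
      rw [← Nat.insert_self_properDivisors h0, sum_insert Nat.self_notMem_properDivisors, add_comm]
    have e2 : ∑ d ∈ m.properDivisors, (d : ℤ) * (-n d) ^ (m / d)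
        = -∑ d ∈ m.properDivisors, (d : ℤ) := by
      rw [← sum_neg_distrib]
      refine sum_congr rfl fun d hd => ?_
      obtain ⟨⟨c, rfl⟩, hlt⟩ := Nat.mem_properDivisors.1 hd
      have ho := Nat.odd_mul.1 (Nat.odd_iff.2 hm)
      rw [ih d hlt (Nat.odd_iff.1 ho.1), Nat.mul_div_cancel_left _ ho.1.pos, ho.2.neg_one_pow]
      ring
    rw [split n m h0, e1, e2] at e
    have : (m : ℤ) * n m = m * 1 := by linarith
    exact mul_left_cancel₀ (by exact_mod_cast h0) this

theorem eqT {n : ℕ → ℤ} (h : Rc n) : ∀ m, m ≠ 0 → m ≤ 400 → n m = T m := by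
  intro m
  induction m using Nat.strong_induction_on with
  | _ m ih =>
    intro h0 hm
    rcases Nat.mod_two_eq_zero_or_one m with hp | hp
    · obtain ⟨k, rfl⟩ : ∃ k, m = 2 * k := ⟨m / 2, by omega⟩
      have e := h _ h0
      have e' := T_rec k (mem_range.2 (by omega)) (by omega)
      rw [split _ _ h0] at e e'
      have : ∑ d ∈ (2 * k).properDivisors, (d : ℤ) * (-n d) ^ (2 * k / d)
          = ∑ d ∈ (2 * k).properDivisors, (d : ℤ) * (-T d) ^ (2 * k / d) := by
        refine sum_congr rfl fun d hd => ?_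
        obtain ⟨hd1, hlt⟩ := Nat.mem_properDivisors.1 hd
        rw [ih d hlt (Nat.pos_of_dvd_of_pos hd1 (by omega)).ne' (by omega)]
      have : ((2 * k : ℕ) : ℤ) * n (2 * k) = ((2 * k : ℕ) : ℤ) * T (2 * k) := by linarith
      exact mul_left_cancel₀ (by exact_mod_cast h0) this
    · rw [odd_one h m hp, T, if_pos hp]

theorem geo (s : Finset ℕ) : ∑ e ∈ s, (1 / 5 : ℝ) ^ e ≤ 5 / 4 := by
  have := (hasSum_geometric_of_lt_one (r := (1 / 5 : ℝ)) (by norm_num) (by norm_num))
  have h := sum_le_hasSum s (fun i _ => by positivity) this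
  norm_num at h ⊢
  exact h

theorem egeo (j : ℕ) : ((j : ℝ) + 2) * (7 / 65) ^ j ≤ 2 * (1 / 5) ^ j := by
  induction j with
  | zero => norm_num
  | succ j ih =>
    rw [pow_succ, pow_succ]
    push_cast
    have h1 : (0 : ℝ) ≤ (7 / 65) ^ j := by positivity
    have h2 : (0 : ℝ) ≤ j := by positivity
    nlinarith [mul_nonneg h1 h2]

theorem sq_small (k : ℕ) (hk : 200 ≤ k) : 80 * (k : ℝ) ^ 2 ≤ 2 ^ k := by
  induction k, hk using Nat.le_induction with
  | base => norm_num
  | succ k hk ih =>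
    have : (200 : ℝ) ≤ k := by exact_mod_cast hk
    rw [pow_succ 2]; push_cast; nlinarith

noncomputable def w (j : ℕ) : ℝ := (2 * (j : ℝ)) * (|(T (2 * j) : ℝ)| / 2 ^ j) ^ (200 / j + 1)

theorem w_sum : ∑ j ∈ Icc 3 65, w j ≤ 1 / 2 := by
  have := T_sum
  have h : ((∑ k ∈ Icc (3 : ℕ) 65,
    (2 * (k : ℚ)) * (|(T (2 * k) : ℚ)| / 2 ^ k) ^ (200 / k + 1) : ℚ) : ℝ) ≤ ((1 / 2 : ℚ) : ℝ) :=
    Rat.cast_le.2 this
  push_cast at h
  exact h

theorem err {n : ℕ → ℤ} (h : Rc n) (k : ℕ) (hk : 200 < k)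
    (ih : ∀ j : ℕ, 65 < j → j < k → (j : ℝ) * |(n (2 * j) : ℝ)| ≤ 7 * 2 ^ j) :
    |∑ d ∈ ((2 * k).properDivisors.erase 2).erase 4, (d : ℝ) * (-(n d : ℝ)) ^ (2 * k / d)|
      ≤ 4 * (k : ℝ) ^ 2 + 2 ^ k * (1 / 2 + 49 / 40) := by
  have hkr : (200 : ℝ) < k := by exact_mod_cast hk
  set S := ((2 * k).properDivisors.erase 2).erase 4 with hS
  have mem : ∀ d ∈ S, d ≠ 4 ∧ d ≠ 2 ∧ d ∣ 2 * k ∧ d < 2 * k := fun d hd => by
    simpa [hS, Nat.mem_properDivisors] using hd
  refine (abs_sum_le_sum_abs _ _).trans ?_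
  have bd : ∀ d ∈ S, |(d : ℝ) * (-(n d : ℝ)) ^ (2 * k / d)| ≤ 2 * (k : ℝ)
      + 2 ^ k * ((if d % 2 = 0 ∧ d ≤ 130 then w (d / 2) else 0)
        + (196 / k) * (1 / 5) ^ (2 * k / d - 2)) := by
    intro d hd
    obtain ⟨h4, h2, hdv, hlt⟩ := mem d hd
    have wn : ∀ j, 0 ≤ w j := fun j => by unfold w; positivity
    have hd0 : 0 < d := Nat.pos_of_dvd_of_pos hdv (by omega)
    rw [abs_mul, abs_pow, abs_neg, Nat.abs_cast]
    rcases Nat.mod_two_eq_zero_or_one d with hp | hp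
    · obtain ⟨j, rfl⟩ : ∃ j, d = 2 * j := ⟨d / 2, by omega⟩
      obtain ⟨e, he⟩ := Nat.dvd_of_mul_dvd_mul_left (by norm_num) hdv
      have hj0 : 0 < j := by omega
      have hq : 2 * k / (2 * j) = e := by
        rw [he, ← mul_assoc, Nat.mul_div_cancel_left _ hd0]
      have he2 : 2 ≤ e := by
        rcases e with _ | _ | e
        · omega
        · omega
        · omega
      rw [hq, show 2 * j / 2 = j by omega]
      have hpow : |(n (2 * j) : ℝ)| ^ e = 2 ^ k * (|(n (2 * j) : ℝ)| / 2 ^ j) ^ e := by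
        rw [div_pow, ← pow_mul, ← he]; field_simp
      rw [hpow]
      by_cases hj : j ≤ 65
      · rw [if_pos ⟨hp, by omega⟩, eqT h _ (by omega) (by omega)]
        have r1 : |(T (2 * j) : ℝ)| / 2 ^ j ≤ 1 := by
          rw [div_le_one (by positivity)]
          exact_mod_cast T_le1 j (mem_range.2 (by omega))
        have hle : 200 / j + 1 ≤ e := by
          have : 200 / j < e := (Nat.div_lt_iff_lt_mul hj0).2 (by rw [mul_comm, ← he]; exact hk)
          omega
        have := pow_le_pow_of_le_one (by positivity) r1 hle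
        have t : ((2 * j : ℕ) : ℝ) * (2 ^ k * (|(T (2 * j) : ℝ)| / 2 ^ j) ^ e) ≤ 2 ^ k * w j := by
          unfold w; push_cast
          have : (2 * (j : ℝ)) * (|(T (2 * j) : ℝ)| / 2 ^ j) ^ e
              ≤ (2 * (j : ℝ)) * (|(T (2 * j) : ℝ)| / 2 ^ j) ^ (200 / j + 1) := by gcongr
          calc _ = 2 ^ k * ((2 * (j : ℝ)) * (|(T (2 * j) : ℝ)| / 2 ^ j) ^ e) := by ring
            _ ≤ _ := by gcongr
        refine t.trans ?_
        rw [mul_add]
        have : (0 : ℝ) ≤ 2 ^ k * ((196 / k) * (1 / 5) ^ (e - 2)) := by positivity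
        linarith
      · rw [if_neg (by omega), zero_add]
        have hjr : (65 : ℝ) < j := by exact_mod_cast (by omega : 65 < j)
        have r1 : |(n (2 * j) : ℝ)| / 2 ^ j ≤ 7 / j := by
          rw [div_le_div_iff₀ (by positivity) (by linarith), mul_comm]
          exact ih j (by omega) (by omega)
        obtain ⟨i, rfl⟩ : ∃ i, e = i + 2 := ⟨e - 2, by omega⟩
        rw [Nat.add_sub_cancel]
        have r2 : (7 : ℝ) / j ≤ 7 / 65 := by gcongr
        have t1 : (|(n (2 * j) : ℝ)| / 2 ^ j) ^ (i + 2) ≤ (7 / 65) ^ i * (7 / j) ^ 2 := by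
          rw [pow_add]
          exact mul_le_mul (pow_le_pow_left₀ (by positivity) (r1.trans r2) i)
            (pow_le_pow_left₀ (by positivity) r1 2) (by positivity) (by positivity)
        have hkj : (k : ℝ) = j * (i + 2) := by rw [he]; push_cast; ring
        have t2 : (2 * (j : ℝ)) * ((7 / 65) ^ i * (7 / j) ^ 2) ≤ (196 / k) * (1 / 5) ^ i := by
          have : (2 * (j : ℝ)) * ((7 / 65) ^ i * (7 / j) ^ 2)
              = (98 / k) * (((i : ℝ) + 2) * (7 / 65) ^ i) := by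
            rw [hkj]; field_simp; ring
          rw [this]
          calc _ ≤ (98 / k) * (2 * (1 / 5 : ℝ) ^ i) :=
                mul_le_mul_of_nonneg_left (egeo i) (by positivity)
            _ = _ := by ring
        push_cast
        calc _ = 2 ^ k * ((2 * (j : ℝ)) * (|(n (2 * j) : ℝ)| / 2 ^ j) ^ (i + 2)) := by ring
          _ ≤ 2 ^ k * ((2 * (j : ℝ)) * ((7 / 65) ^ i * (7 / j) ^ 2)) := by gcongr
          _ ≤ 2 ^ k * ((196 / k) * (1 / 5) ^ i) := by gcongr
          _ ≤ _ := by linarith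
    · rw [odd_one h d hp, if_neg (by omega)]
      have : (d : ℝ) ≤ 2 * k := by exact_mod_cast hlt.le
      have : (0 : ℝ) ≤ 2 ^ k * (0 + (196 / k) * (1 / 5) ^ (2 * k / d - 2)) := by positivity
      simp only [Int.cast_one, abs_one, one_pow, mul_one]
      linarith
  refine (sum_le_sum bd).trans ?_
  rw [sum_add_distrib, ← mul_sum, ← mul_sum, sum_add_distrib, ← mul_sum]
  have c1 : ∑ _d ∈ S, (k : ℝ) ≤ 2 * (k : ℝ) ^ 2 := by
    rw [sum_const, nsmul_eq_mul]
    have : S.card ≤ 2 * k := by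
      have : S ⊆ range (2 * k) := fun d hd => mem_range.2 (mem d hd).2.2.2
      simpa using card_le_card this
    have : (S.card : ℝ) ≤ 2 * k := by exact_mod_cast this
    nlinarith
  have c2 : ∑ d ∈ S, (if d % 2 = 0 ∧ d ≤ 130 then w (d / 2) else 0) ≤ 1 / 2 := by
    rw [← sum_filter, ← sum_image (f := w) (g := fun d => d / 2)]
    · refine le_trans (sum_le_sum_of_subset_of_nonneg ?_ fun j _ _ => by unfold w; positivity) w_sum
      intro j hj
      obtain ⟨d, hd, rfl⟩ := mem_image.1 hj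
      obtain ⟨hd1, hd2⟩ := mem_filter.1 hd
      obtain ⟨h4, h2, hdv, hlt⟩ := mem d hd1
      have hd0 : 0 < d := Nat.pos_of_dvd_of_pos hdv (by omega)
      exact mem_Icc.2 (by omega)
    · intro a ha b hb hab
      have := (mem_filter.1 (mem_coe.1 ha)).2
      have := (mem_filter.1 (mem_coe.1 hb)).2
      simp only at hab
      omega
  have c3 : ∑ d ∈ S, (1 / 5 : ℝ) ^ (2 * k / d - 2) ≤ 5 / 4 := by
    rw [← sum_image (f := fun e => (1 / 5 : ℝ) ^ e) (g := fun d => 2 * k / d - 2)]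
    · exact geo _
    · intro a ha b hb hab
      obtain ⟨-, -, ⟨x, hx⟩, hlt⟩ := mem a ha
      obtain ⟨-, -, ⟨y, hy⟩, hlt'⟩ := mem b hb
      have ha0 : 0 < a := Nat.pos_of_ne_zero (by rintro rfl; omega)
      have hb0 : 0 < b := Nat.pos_of_ne_zero (by rintro rfl; omega)
      have qx : 2 * k / a = x := by rw [hx, Nat.mul_div_cancel_left _ ha0]
      have qy : 2 * k / b = y := by rw [hy, Nat.mul_div_cancel_left _ hb0]
      have x2 : 2 ≤ x := by
        rcases x with _ | _ | x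
        · omega
        · omega
        · omega
      have y2 : 2 ≤ y := by
        rcases y with _ | _ | y
        · omega
        · omega
        · omega
      simp only [qx, qy] at hab
      have : x = y := by omega
      subst this
      exact Nat.eq_of_mul_eq_mul_right (by omega) (hx.symm.trans hy)
  have c4 : (196 / k : ℝ) * ∑ d ∈ S, (1 / 5 : ℝ) ^ (2 * k / d - 2) ≤ 49 / 40 := by
    calc _ ≤ (196 / 200 : ℝ) * (5 / 4) := by gcongr
      _ = _ := by norm_num
  have : (2 : ℝ) ^ k * (∑ d ∈ S, (if d % 2 = 0 ∧ d ≤ 130 then w (d / 2) else 0)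
      + (196 / k : ℝ) * ∑ d ∈ S, (1 / 5 : ℝ) ^ (2 * k / d - 2)) ≤ 2 ^ k * (1 / 2 + 49 / 40) := by
    gcongr
  linarith

theorem step {n : ℕ → ℤ} (h : Rc n) (k : ℕ) (hk : 200 < k)
    (ih : ∀ j : ℕ, 65 < j → j < k → (j : ℝ) * |(n (2 * j) : ℝ)| ≤ 7 * 2 ^ j) :
    |2 * (k : ℝ) * n (2 * k) - (if k % 4 = 0 then 6 else -2) * 2 ^ k| < 2 * 2 ^ k := by
  have E := err h k hk ih
  have h0 : 2 * k ≠ 0 := by omega
  have e := h _ h0
  rw [split _ _ h0] at e
  have e' := congrArg (Int.cast : ℤ → ℝ) e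
  push_cast at e'
  have m2 : 2 ∈ (2 * k).properDivisors := Nat.mem_properDivisors.2 ⟨dvd_mul_right _ _, by omega⟩
  rw [← add_sum_erase _ _ m2, eqT h 2 (by omega) (by omega), T2,
    show 2 * k / 2 = k by omega] at e'
  have sg1 : (0 : ℝ) ≤ ∑ d ∈ (2 * k).divisors, (d : ℝ) := sum_nonneg fun _ _ => by positivity
  have sg2 : ∑ d ∈ (2 * k).divisors, (d : ℝ) ≤ 4 * (k : ℝ) ^ 2 := by
    have h1 : ∑ d ∈ (2 * k).divisors, (d : ℝ) ≤ ∑ _d ∈ (2 * k).divisors, (2 * k : ℝ) :=
      sum_le_sum fun d hd => by exact_mod_cast Nat.divisor_le hd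
    rw [sum_const, nsmul_eq_mul] at h1
    have : (((2 * k).divisors.card : ℕ) : ℝ) ≤ 2 * k := by
      exact_mod_cast Nat.card_divisors_le_self _
    have : (0 : ℝ) ≤ k := by positivity
    nlinarith
  have sq := sq_small k hk.le
  have hp : (0 : ℝ) < 2 ^ k := by positivity
  rw [abs_le] at E
  rcases Nat.mod_two_eq_zero_or_one k with hk2 | hk2
  · obtain ⟨j, rfl⟩ : ∃ j, k = 2 * j := ⟨k / 2, by omega⟩
    have m4 : 4 ∈ (2 * (2 * j)).properDivisors.erase 2 :=
      mem_erase.2 ⟨by norm_num, Nat.mem_properDivisors.2 ⟨⟨j, by ring⟩, by omega⟩⟩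
    rw [← add_sum_erase _ _ m4, eqT h 4 (by omega) (by omega), T4,
      show 2 * (2 * j) / 4 = j by omega] at e'
    have p2 : (-((2 : ℤ) : ℝ)) ^ (2 * j) = 2 ^ (2 * j) := by rw [pow_mul, pow_mul]; norm_num
    have p4 : (2 : ℝ) ^ (2 * j) = 4 ^ j := by rw [pow_mul]; norm_num
    rw [p2] at e'
    rcases Nat.even_or_odd j with hj | hj
    · rw [hj.neg_pow] at e'
      rw [if_pos (by obtain ⟨x, hx⟩ := hj; omega), abs_lt]
      push_cast at e' E sg2 sq ⊢
      rw [← p4] at e'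
      constructor <;> linarith [E.1, E.2]
    · rw [hj.neg_pow] at e'
      rw [if_neg (by obtain ⟨x, hx⟩ := hj; omega), abs_lt]
      push_cast at e' E sg2 sq ⊢
      rw [← p4] at e'
      constructor <;> linarith [E.1, E.2]
  · have m4 : 4 ∉ (2 * k).properDivisors.erase 2 := fun hh => by
      obtain ⟨c, hc⟩ := (Nat.mem_properDivisors.1 (mem_erase.1 hh).2).1
      omega
    rw [erase_eq_of_notMem m4] at E
    rw [(Nat.odd_iff.2 hk2).neg_pow] at e'
    rw [if_neg (by omega), abs_lt]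
    push_cast at e' ⊢
    constructor <;> linarith [E.1, E.2]

theorem bnd {n : ℕ → ℤ} (h : Rc n) : ∀ j : ℕ, 65 < j → (j : ℝ) * |(n (2 * j) : ℝ)| ≤ 7 * 2 ^ j := by
  intro k
  induction k using Nat.strong_induction_on with
  | _ k ih =>
    intro hk
    by_cases h2 : k ≤ 200
    · rw [eqT h _ (by omega) (by omega)]
      exact_mod_cast T_le14 k (mem_range.2 (by omega)) hk
    · have := step h k (by omega) fun j h1 h2 => ih j h2 h1
      rw [← Nat.abs_cast (R := ℝ) k, ← abs_mul, abs_le]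
      rw [abs_lt] at this
      have hp : (0 : ℝ) < 2 ^ k := by positivity
      split_ifs at this <;> constructor <;> linarith [this.1, this.2]

theorem main {n : ℕ → ℤ} (h : Rc n) (k : ℕ) (hk : 4 ≤ k) :
    (k % 4 = 0 → 0 < n (2 * k)) ∧ (k % 4 ≠ 0 → n (2 * k) < 0) := by
  by_cases h2 : k ≤ 200
  · rw [eqT h _ (by omega) (by omega)]
    exact T_sign k (mem_range.2 (by omega)) (by omega)
  · have := step h k (by omega) fun j h1 _ => bnd h j h1
    rw [abs_lt] at this
    have hp : (0 : ℝ) < 2 ^ k := by positivity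
    have hk0 : (0 : ℝ) < k := by exact_mod_cast (by omega : 0 < k)
    constructor
    · intro h4
      rw [if_pos h4] at this
      have : (0 : ℝ) < n (2 * k) := by
        by_contra hc
        nlinarith [this.1]
      exact_mod_cast this
    · intro h4
      rw [if_neg h4] at this
      have : (n (2 * k) : ℝ) < 0 := by
        by_contra hc
        nlinarith [this.2]
      exact_mod_cast this

end Pool.Agent.H.MP_f3871b_nt
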